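import Mathlib

/-!
# MP_7c844e_an : a strictly convex Banach space with a Daugavet point

The space is `c`, written as `ℝ × c₀` (the sequence is `n ↦ ℓ + u n`), with the norm
`N (ℓ, u) = max (φ (ℓ, u)) (sup_n ((1 - ε n) |ℓ + u n| + ε n φ (ℓ, u)))`, where
`φ (ℓ, u) = (ℓ ^ 2 + ∑ 4 ^ (-(n+1)) (u n) ^ 2) ^ (1/2)` and `ε n = 1 / (n + 2)`.
-/

namespace Pool.Agent.Results.MP_7c844e_an.StrictlyConvexDaugavet

open Filter Topology

section defs

variable (X : Type) [NormedAddCommGroup X] [NormedSpace ℝ X]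

/-- `X` is strictly convex: the unit sphere contains no nontrivial segment. -/
def StrictlyConvex : Prop := ∀ x y : X, ‖x‖ = 1 → ‖y‖ = 1 → ‖x + y‖ = 2 → x = y

variable {X}

/-- `x` is a Daugavet point: `x` is in the unit sphere, and every slice
`{y ∈ B_X | f y > 1 - α}` (`‖f‖ = 1`, `α > 0`) contains, for every `ε > 0`, a point at distance
`> 2 - ε` from `x`. -/
def IsDaugavetPoint (x : X) : Prop :=
  ‖x‖ = 1 ∧ ∀ f : StrongDual ℝ X, ‖f‖ = 1 → ∀ α > (0 : ℝ), ∀ ε > (0 : ℝ),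
    ∃ y : X, ‖y‖ ≤ 1 ∧ 1 - α < f y ∧ 2 - ε < ‖x - y‖

end defs

/-- The underlying vector space. -/
def Xt : Type := ℝ × ZeroAtInftyContinuousMap ℕ ℝ

noncomputable instance : AddCommGroup Xt := inferInstanceAs (AddCommGroup (ℝ × ZeroAtInftyContinuousMap ℕ ℝ))
noncomputable instance : Module ℝ Xt := inferInstanceAs (Module ℝ (ℝ × ZeroAtInftyContinuousMap ℕ ℝ))

abbrev C0 : Type := ZeroAtInftyContinuousMap ℕ ℝ
abbrev L2 : Type := lp (fun _ : ℕ => ℝ) 2
abbrev H : Type := WithLp 2 (ℝ × L2)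

lemma abs_le_norm (u : C0) (n : ℕ) : |u n| ≤ ‖u‖ := by
  have := (ZeroAtInftyContinuousMap.toBCF u).norm_coe_le_norm n
  simpa using this

lemma summable_sq (u : C0) : Summable fun n => ‖(1 / 2 : ℝ) ^ (n + 1) * u n‖ ^ (2 : ℝ) := by
  have h1 : Summable fun n : ℕ => ‖u‖ ^ 2 * (1 / 4 : ℝ) ^ n :=
    (summable_geometric_of_lt_one (by norm_num) (by norm_num)).mul_left _
  refine Summable.of_nonneg_of_le (fun n => by positivity) (fun n => ?_) h1
  rw [Real.rpow_two, norm_mul, mul_pow, norm_pow]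
  have h2 : ‖u n‖ ^ 2 ≤ ‖u‖ ^ 2 := by
    gcongr
    exact abs_le_norm u n
  have h3 : (‖(1 / 2 : ℝ)‖ ^ (n + 1)) ^ 2 ≤ (1 / 4 : ℝ) ^ n := by
    rw [Real.norm_of_nonneg (by norm_num : (0 : ℝ) ≤ 1 / 2), ← pow_mul, mul_comm, pow_mul]
    norm_num
    rw [pow_succ]
    have : (0 : ℝ) < (1 / 4) ^ n := by positivity
    linarith
  calc _ ≤ (1 / 4 : ℝ) ^ n * ‖u‖ ^ 2 := by gcongr
    _ = _ := by ring

lemma mem_l2 (u : C0) : Memℓp (fun n => (1 / 2 : ℝ) ^ (n + 1) * u n) 2 :=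
  memℓp_gen (by simpa using summable_sq u)

/-- The operator `c₀ → ℓ²`. -/
noncomputable def S : C0 →ₗ[ℝ] L2 where
  toFun u := ⟨fun n => (1 / 2 : ℝ) ^ (n + 1) * u n, mem_l2 u⟩
  map_add' u v := by
    ext n
    simp [mul_add]
  map_smul' c u := by
    ext n
    simp only [ZeroAtInftyContinuousMap.coe_smul, Pi.smul_apply, smul_eq_mul, RingHom.id_apply,
      lp.coeFn_smul]
    ring

lemma S_apply (u : C0) (n : ℕ) : S u n = (1 / 2 : ℝ) ^ (n + 1) * u n := rfl

lemma S_inj : Function.Injective S := by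
  intro u v h
  ext n
  have h1 : S u n = S v n := by rw [h]
  rw [S_apply, S_apply] at h1
  exact mul_left_cancel₀ (by positivity) h1

lemma norm_S_le (u : C0) : ‖S u‖ ≤ ‖u‖ := by
  apply lp.norm_le_of_forall_sum_le (by simp) (norm_nonneg _)
  intro s
  have h0 : ∀ n, ‖S u n‖ ^ (2 : ENNReal).toReal ≤ ‖u‖ ^ 2 * ((1 / 4 : ℝ) ^ (n + 1)) := by
    intro n
    rw [S_apply]
    simp only [ENNReal.toReal_ofNat, Real.rpow_two]
    rw [norm_mul, mul_pow, norm_pow]
    have h2 : ‖u n‖ ^ 2 ≤ ‖u‖ ^ 2 := by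
      gcongr
      exact abs_le_norm u n
    have h3 : (‖(1 / 2 : ℝ)‖ ^ (n + 1)) ^ 2 = (1 / 4 : ℝ) ^ (n + 1) := by
      rw [Real.norm_of_nonneg (by norm_num : (0 : ℝ) ≤ 1 / 2), ← pow_mul, mul_comm, pow_mul]
      norm_num
    rw [h3]
    calc _ ≤ (1 / 4 : ℝ) ^ (n + 1) * ‖u‖ ^ 2 := by gcongr
      _ = _ := by ring
  have h1 : ∑ n ∈ s, (1 / 4 : ℝ) ^ n ≤ 4 / 3 := by
    refine (Summable.sum_le_tsum s (fun _ _ => by positivity)
      (summable_geometric_of_lt_one (by norm_num) (by norm_num))).trans ?_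
    rw [tsum_geometric_of_lt_one (by norm_num) (by norm_num)]
    norm_num
  calc ∑ n ∈ s, ‖S u n‖ ^ (2 : ENNReal).toReal ≤ ∑ n ∈ s, ‖u‖ ^ 2 * ((1 / 4 : ℝ) ^ (n + 1)) :=
        Finset.sum_le_sum fun n _ => h0 n
    _ = ‖u‖ ^ 2 * (1 / 4) * ∑ n ∈ s, (1 / 4 : ℝ) ^ n := by
        rw [Finset.mul_sum]
        exact Finset.sum_congr rfl fun n _ => by ring
    _ ≤ ‖u‖ ^ 2 * (1 / 4) * (4 / 3) := by gcongr
    _ ≤ ‖u‖ ^ 2 := by nlinarith [sq_nonneg ‖u‖]
    _ = ‖u‖ ^ (2 : ENNReal).toReal := by simp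

/-- The operator into the Hilbert space `ℝ ⊕ ℓ²`. -/
noncomputable def T : Xt →ₗ[ℝ] H where
  toFun y := WithLp.toLp 2 (y.1, S y.2)
  map_add' x y := by
    have h1 : (x + y).1 = x.1 + y.1 := rfl
    have h2 : (x + y).2 = x.2 + y.2 := rfl
    rw [h1, h2, map_add]
    rfl
  map_smul' c y := by
    have h1 : (c • y).1 = c • y.1 := rfl
    have h2 : (c • y).2 = c • y.2 := rfl
    rw [h1, h2, map_smul]
    rfl

lemma T_apply (y : Xt) : T y = WithLp.toLp 2 (y.1, S y.2) := rfl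

lemma T_inj : Function.Injective T := by
  intro x y h
  rw [T_apply, T_apply] at h
  have h1 := (WithLp.toLp_injective 2) h
  rw [Prod.mk.injEq] at h1
  exact Prod.ext h1.1 (S_inj h1.2)

lemma abs_fst_le (y : Xt) : |y.1| ≤ ‖T y‖ := by
  have h1 : ‖T y‖ ^ 2 = ‖y.1‖ ^ 2 + ‖S y.2‖ ^ 2 := by
    rw [T_apply, WithLp.prod_norm_sq_eq_of_L2]
    rfl
  refine (sq_le_sq₀ (abs_nonneg _) (norm_nonneg _)).1 ?_
  rw [h1, Real.norm_eq_abs]
  nlinarith [sq_nonneg ‖S y.2‖]

lemma norm_T_le (y : Xt) : ‖T y‖ ≤ |y.1| + ‖y.2‖ := by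
  have h1 : ‖T y‖ ^ 2 = ‖y.1‖ ^ 2 + ‖S y.2‖ ^ 2 := by
    rw [T_apply, WithLp.prod_norm_sq_eq_of_L2]
    rfl
  have h2 := norm_S_le y.2
  have h3 : ‖T y‖ ^ 2 ≤ (|y.1| + ‖y.2‖) ^ 2 := by
    rw [h1, Real.norm_eq_abs]
    have h4 : 0 ≤ |y.1| := abs_nonneg _
    have h5 : 0 ≤ ‖y.2‖ := norm_nonneg _
    have h6 : 0 ≤ ‖S y.2‖ := norm_nonneg _
    nlinarith [mul_nonneg h4 h5]
  exact (sq_le_sq₀ (norm_nonneg _) (by positivity)).1 h3

/-- Coordinates. -/
noncomputable def co (n : ℕ) : Xt →ₗ[ℝ] ℝ where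
  toFun y := y.1 + y.2 n
  map_add' x y := by
    have h1 : (x + y).1 = x.1 + y.1 := rfl
    have h2 : (x + y).2 = x.2 + y.2 := rfl
    rw [h1, h2]
    simp only [ZeroAtInftyContinuousMap.coe_add, Pi.add_apply]
    ring
  map_smul' c y := by
    have h1 : (c • y).1 = c • y.1 := rfl
    have h2 : (c • y).2 = c • y.2 := rfl
    rw [h1, h2]
    simp only [ZeroAtInftyContinuousMap.coe_smul, Pi.smul_apply, smul_eq_mul, RingHom.id_apply]
    ring

lemma co_apply (n : ℕ) (y : Xt) : co n y = y.1 + y.2 n := rfl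

lemma abs_co_le (n : ℕ) (y : Xt) : |co n y| ≤ |y.1| + ‖y.2‖ := by
  rw [co_apply]
  exact (abs_add_le _ _).trans (by gcongr; exact abs_le_norm _ _)

lemma tendsto_co (y : Xt) : Tendsto (fun n => co n y) atTop (𝓝 y.1) := by
  have h1 : Tendsto (fun n => y.2 n) (cocompact ℕ) (𝓝 0) := y.2.zero_at_infty'
  rw [cocompact_eq_cofinite, Nat.cofinite_eq_atTop] at h1
  simpa [co_apply] using h1.const_add y.1

/-- The weights. -/
noncomputable def ep (n : ℕ) : ℝ := 1 / (n + 2)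

lemma ep_pos (n : ℕ) : 0 < ep n := by unfold ep; positivity

lemma ep_le (n : ℕ) : ep n ≤ 1 / 2 := by
  unfold ep
  exact one_div_le_one_div_of_le (by norm_num) (by linarith [(Nat.cast_nonneg n : (0 : ℝ) ≤ n)])

lemma tendsto_ep : Tendsto ep atTop (𝓝 0) := by
  have h := (tendsto_one_div_add_atTop_nhds_zero_nat (𝕜 := ℝ)).comp (tendsto_add_atTop_nat 1)
  refine h.congr fun n => ?_
  simp only [Function.comp, ep]
  push_cast
  ring

noncomputable def ph (n : ℕ) (y : Xt) : ℝ := (1 - ep n) * |co n y| + ep n * ‖T y‖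

lemma tendsto_ph (y : Xt) : Tendsto (fun n => ph n y) atTop (𝓝 |y.1|) := by
  have h1 : Tendsto (fun n => (1 - ep n) * |co n y| + ep n * ‖T y‖) atTop
      (𝓝 ((1 - 0) * |y.1| + 0 * ‖T y‖)) :=
    ((tendsto_const_nhds.sub tendsto_ep).mul (tendsto_co y).abs).add
      (tendsto_ep.mul tendsto_const_nhds)
  have e : (1 - 0) * |y.1| + 0 * ‖T y‖ = |y.1| := by ring
  rw [e] at h1
  exact h1

lemma ph_le (n : ℕ) (y : Xt) : ph n y ≤ |y.1| + ‖y.2‖ := by
  have h1 := abs_co_le n y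
  have h2 := norm_T_le y
  have h3 := ep_pos n
  have h4 := ep_le n
  unfold ph
  nlinarith

lemma bdd (y : Xt) : BddAbove (Set.range fun n => ph n y) :=
  ⟨_, by rintro _ ⟨n, rfl⟩; exact ph_le n y⟩

/-- The norm. -/
noncomputable def N (y : Xt) : ℝ := max ‖T y‖ (⨆ n, ph n y)

lemma T_le_N (y : Xt) : ‖T y‖ ≤ N y := le_max_left _ _

lemma ph_le_N (n : ℕ) (y : Xt) : ph n y ≤ N y := (le_ciSup (bdd y) n).trans (le_max_right _ _)

lemma N_le {y : Xt} {r : ℝ} (h : ‖T y‖ ≤ r) (h' : ∀ n, ph n y ≤ r) : N y ≤ r :=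
  max_le h (ciSup_le h')

lemma ph_add (n : ℕ) (x y : Xt) : ph n (x + y) ≤ ph n x + ph n y := by
  unfold ph
  rw [map_add, map_add]
  have h1 := abs_add_le (co n x) (co n y)
  have h2 := norm_add_le (T x) (T y)
  have h3 := ep_pos n
  have h4 := ep_le n
  nlinarith

lemma ph_smul (n : ℕ) (c : ℝ) (y : Xt) : ph n (c • y) = |c| * ph n y := by
  unfold ph
  rw [map_smul, map_smul, norm_smul, smul_eq_mul, abs_mul, Real.norm_eq_abs]
  ring

lemma N_nonneg (y : Xt) : 0 ≤ N y := (norm_nonneg _).trans (T_le_N y)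

lemma N_smul_le (c : ℝ) (y : Xt) : N (c • y) ≤ |c| * N y := by
  refine N_le ?_ fun n => ?_
  · rw [map_smul, norm_smul, Real.norm_eq_abs]
    gcongr
    exact T_le_N y
  · rw [ph_smul]
    gcongr
    exact ph_le_N n y

lemma N_smul (c : ℝ) (y : Xt) : N (c • y) = |c| * N y := by
  refine le_antisymm (N_smul_le c y) ?_
  rcases eq_or_ne c 0 with rfl | hc
  · simp [N_nonneg]
  · have h := N_smul_le c⁻¹ (c • y)
    rw [smul_smul, inv_mul_cancel₀ hc, one_smul, abs_inv] at h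
    have h2 : 0 < |c| := abs_pos.2 hc
    calc |c| * N y ≤ |c| * (|c|⁻¹ * N (c • y)) := by gcongr
      _ = N (c • y) := by field_simp

noncomputable instance : Norm Xt := ⟨N⟩

lemma norm_def (y : Xt) : ‖y‖ = N y := rfl

lemma core : NormedSpace.Core ℝ Xt where
  norm_nonneg := N_nonneg
  norm_smul c y := N_smul c y
  norm_triangle x y := by
    refine N_le ?_ fun n => ?_
    · rw [map_add]
      exact (norm_add_le _ _).trans (add_le_add (T_le_N x) (T_le_N y))
    · exact (ph_add n x y).trans (add_le_add (ph_le_N n x) (ph_le_N n y))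
  norm_eq_zero_iff y := by
    constructor
    · intro h
      have h1 : ‖T y‖ ≤ 0 := (T_le_N y).trans (le_of_eq h)
      have h2 : T y = 0 := norm_le_zero_iff.1 h1
      exact T_inj (h2.trans (map_zero T).symm)
    · rintro rfl
      refine le_antisymm (N_le (by simp) fun n => ?_) (N_nonneg _)
      simp [ph]

noncomputable instance : NormedAddCommGroup Xt := NormedAddCommGroup.ofCore core
noncomputable instance : NormedSpace ℝ Xt := NormedSpace.ofCore core


/-- The norm is attained by one of the seminorms. -/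
lemma attained (y : Xt) : N y = ‖T y‖ ∨ ∃ n, N y = ph n y := by
  by_cases h : (⨆ n, ph n y) ≤ ‖T y‖
  · left
    exact max_eq_left h
  · right
    push Not at h
    obtain ⟨n0, hn0⟩ := exists_lt_of_lt_ciSup h
    have h1 : |y.1| < ph n0 y := (abs_fst_le y).trans_lt hn0
    have h2 : ∀ᶠ n in atTop, ph n y < ph n0 y := (tendsto_ph y).eventually_lt_const h1
    obtain ⟨M, hM⟩ := eventually_atTop.1 h2
    obtain ⟨n1, -, hn1⟩ := Finset.exists_max_image (Finset.range (M + n0 + 1)) (fun n => ph n y)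
      ⟨n0, Finset.mem_range.2 (by omega)⟩
    have h3 : ∀ m, ph m y ≤ ph n1 y := by
      intro m
      by_cases hm : m < M + n0 + 1
      · exact hn1 m (Finset.mem_range.2 hm)
      · exact (hM m (by omega)).le.trans (hn1 n0 (Finset.mem_range.2 (by omega)))
    refine ⟨n1, le_antisymm (N_le ?_ h3) (ph_le_N n1 y)⟩
    exact hn0.le.trans (h3 n0)

theorem strictlyConvex : StrictlyConvex Xt := by
  intro x y hx hy hxy
  rw [norm_def] at hx hy hxy
  have key : ‖T x + T y‖ = ‖T x‖ + ‖T y‖ := by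
    refine le_antisymm (norm_add_le _ _) ?_
    rcases attained (x + y) with h | ⟨n, h⟩
    · rw [hxy, map_add] at h
      rw [← h]
      have := T_le_N x
      have := T_le_N y
      linarith
    · have h1 := ph_le_N n x
      have h2 := ph_le_N n y
      rw [hxy] at h
      unfold ph at h h1 h2
      rw [map_add, map_add] at h
      have h3 := abs_add_le (co n x) (co n y)
      have h4 := ep_pos n
      have h5 := ep_le n
      have h6 : ep n * (‖T x‖ + ‖T y‖) ≤ ep n * ‖T x + T y‖ := by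
        have h7 : (1 - ep n) * |co n x + co n y| ≤ (1 - ep n) * (|co n x| + |co n y|) :=
          mul_le_mul_of_nonneg_left h3 (by linarith)
        nlinarith
      exact le_of_mul_le_mul_left h6 h4
  have h1 : SameRay ℝ (T x) (T y) := sameRay_iff_norm_add.2 key
  have h2 : SameRay ℝ x y := T_inj.sameRay_map_iff.1 h1
  have h3 := sameRay_iff_norm_smul_eq.1 h2
  rw [norm_def, norm_def, hx, hy, one_smul, one_smul] at h3
  exact h3.symm

/-! ### Completeness -/

abbrev E : Type := ℝ × C0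

noncomputable def toE : Xt ≃ₗ[ℝ] E := LinearEquiv.refl ℝ _

lemma toE_apply (y : Xt) : toE y = (y.1, y.2) := rfl

lemma norm_toE_le (y : Xt) : ‖toE y‖ ≤ 3 * ‖y‖ := by
  have h1 : |y.1| ≤ ‖y‖ := (abs_fst_le y).trans (T_le_N y)
  have h2 : ∀ n, |y.2 n| ≤ 3 * ‖y‖ := by
    intro n
    have h3 : ph n y ≤ ‖y‖ := ph_le_N n y
    have h4 : 1 / 2 * |co n y| ≤ ph n y := by
      unfold ph
      have := ep_le n
      have := ep_pos n
      nlinarith [abs_nonneg (co n y), norm_nonneg (T y), mul_nonneg (ep_pos n).le (norm_nonneg (T y))]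
    have h5 : |y.2 n| ≤ |co n y| + |y.1| := by
      have : y.2 n = co n y - y.1 := by rw [co_apply]; ring
      rw [this]
      exact abs_sub _ _
    linarith
  rw [toE_apply, Prod.norm_def]
  refine max_le ?_ ?_
  · have : ‖y.1‖ = |y.1| := rfl
    rw [this]
    linarith [norm_nonneg y]
  · rw [← ZeroAtInftyContinuousMap.norm_toBCF_eq_norm]
    refine (BoundedContinuousFunction.norm_le (by positivity)).2 fun n => ?_
    exact h2 n

lemma norm_symm_le (z : E) : ‖toE.symm z‖ ≤ 3 * ‖z‖ := by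
  set y : Xt := toE.symm z with hy
  have h0 : |y.1| ≤ ‖z‖ := norm_fst_le z
  have h1 : ‖y.2‖ ≤ ‖z‖ := norm_snd_le z
  rw [norm_def]
  refine N_le ?_ fun n => ?_
  · linarith [norm_T_le y, norm_nonneg z]
  · linarith [ph_le n y, norm_nonneg z]

noncomputable def toEL : Xt ≃L[ℝ] E :=
  toE.toContinuousLinearEquivOfBounds 3 3 norm_toE_le norm_symm_le

instance : CompleteSpace Xt :=
  (completeSpace_congr (e := toEL.toEquiv) toEL.isUniformEmbedding).2 inferInstance

/-! ### The Daugavet point -/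

/-- The unit vectors of `c₀`. -/
noncomputable def dl (n : ℕ) : C0 where
  toFun := Pi.single n 1
  continuous_toFun := continuous_of_discreteTopology
  zero_at_infty' := by
    rw [cocompact_eq_cofinite]
    refine tendsto_const_nhds.congr' ?_
    have : ∀ᶠ m in cofinite, m ≠ n := by
      rw [eventually_cofinite]
      simp
    filter_upwards [this] with m hm
    rw [Pi.single_eq_of_ne hm]

lemma dl_apply (n m : ℕ) : dl n m = if m = n then 1 else 0 := by
  show (Pi.single n 1 : ℕ → ℝ) m = _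
  rw [Pi.single_apply]

noncomputable def ee (n : ℕ) : Xt := (0, dl n)

lemma co_ee (n m : ℕ) : co m (ee n) = if m = n then 1 else 0 := by
  rw [co_apply]
  show (0 : ℝ) + dl n m = _
  rw [dl_apply, zero_add]

lemma norm_S_dl (n : ℕ) : ‖S (dl n)‖ = (1 / 2) ^ (n + 1) := by
  have : S (dl n) = lp.single 2 n ((1 / 2 : ℝ) ^ (n + 1)) := by
    ext m
    rw [S_apply, dl_apply, lp.coeFn_single, Pi.single_apply]
    split_ifs with h
    · subst h; simp
    · simp
  rw [this, lp.norm_single (by simp)]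
  simp

lemma norm_T_ee (n : ℕ) : ‖T (ee n)‖ = (1 / 2) ^ (n + 1) := by
  have h1 : ‖T (ee n)‖ ^ 2 = ((1 / 2 : ℝ) ^ (n + 1)) ^ 2 := by
    rw [T_apply, WithLp.prod_norm_sq_eq_of_L2]
    show ‖(0 : ℝ)‖ ^ 2 + ‖S (dl n)‖ ^ 2 = _
    rw [norm_S_dl]
    simp
  exact (sq_eq_sq₀ (norm_nonneg _) (by positivity)).1 h1

noncomputable def x0 : Xt := (1, 0)

lemma co_x0 (n : ℕ) : co n x0 = 1 := by
  rw [co_apply]
  show (1 : ℝ) + (0 : C0) n = 1
  simp

lemma norm_T_x0 : ‖T x0‖ = 1 := by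
  have h1 : ‖T x0‖ ^ 2 = 1 ^ 2 := by
    rw [T_apply, WithLp.prod_norm_sq_eq_of_L2]
    show ‖(1 : ℝ)‖ ^ 2 + ‖S (0 : C0)‖ ^ 2 = _
    rw [map_zero]
    simp
  exact (sq_eq_sq₀ (norm_nonneg _) (by positivity)).1 h1

lemma norm_x0 : ‖x0‖ = 1 := by
  rw [norm_def]
  refine le_antisymm (N_le norm_T_x0.le fun n => ?_) (norm_T_x0 ▸ T_le_N x0)
  unfold ph
  rw [co_x0, norm_T_x0, abs_one]
  linarith

/-- Signed sums of the unit vectors have norm at most one. -/
lemma norm_sum_le (F : Finset ℕ) (s : ℕ → ℝ) (hs : ∀ n, |s n| ≤ 1) :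
    ‖∑ n ∈ F, s n • ee n‖ ≤ 1 := by
  have hco : ∀ m, |co m (∑ n ∈ F, s n • ee n)| ≤ 1 := by
    intro m
    rw [map_sum]
    simp only [map_smul, co_ee, smul_eq_mul, mul_ite, mul_one, mul_zero]
    rw [Finset.sum_ite_eq]
    split_ifs
    · exact hs m
    · simp
  have hT : ‖T (∑ n ∈ F, s n • ee n)‖ ≤ 1 := by
    rw [map_sum]
    refine (_root_.norm_sum_le _ _).trans ?_
    calc ∑ n ∈ F, ‖T (s n • ee n)‖ ≤ ∑ n ∈ F, (1 / 2 : ℝ) * (1 / 2) ^ n := by
          refine Finset.sum_le_sum fun n _ => ?_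
          rw [map_smul, norm_smul, norm_T_ee, Real.norm_eq_abs, pow_succ]
          have := hs n
          have h2 : (0 : ℝ) < (1 / 2) ^ n := by positivity
          nlinarith
      _ = 1 / 2 * ∑ n ∈ F, (1 / 2 : ℝ) ^ n := by rw [Finset.mul_sum]
      _ ≤ 1 / 2 * 2 := by
          gcongr
          refine (Summable.sum_le_tsum F (fun _ _ => by positivity) summable_geometric_two).trans ?_
          rw [tsum_geometric_two]
      _ = 1 := by norm_num
  rw [norm_def]
  refine N_le hT fun m => ?_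
  unfold ph
  have := ep_pos m
  have := ep_le m
  have := hco m
  nlinarith

lemma tendsto_f (f : StrongDual ℝ Xt) : Tendsto (fun n => f (ee n)) atTop (𝓝 0) := by
  have h1 : Summable fun n => |f (ee n)| := by
    refine summable_of_sum_le (c := ‖f‖) (fun _ => abs_nonneg _) fun F => ?_
    set s : ℕ → ℝ := fun n => if 0 ≤ f (ee n) then 1 else -1 with hs
    have h0 : ∀ n, |s n| ≤ 1 := by
      intro n
      simp only [hs]
      split_ifs <;> simp
    have h2 : ∑ n ∈ F, |f (ee n)| = f (∑ n ∈ F, s n • ee n) := by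
      rw [map_sum]
      refine Finset.sum_congr rfl fun n _ => ?_
      rw [map_smul, smul_eq_mul]
      simp only [hs]
      split_ifs with h
      · rw [abs_of_nonneg h, one_mul]
      · rw [abs_of_neg (not_le.1 h), neg_one_mul]
    rw [h2]
    calc f (∑ n ∈ F, s n • ee n) ≤ ‖f (∑ n ∈ F, s n • ee n)‖ := Real.le_norm_self _
      _ ≤ ‖f‖ * ‖∑ n ∈ F, s n • ee n‖ := f.le_opNorm _
      _ ≤ ‖f‖ * 1 := by
          gcongr
          exact norm_sum_le F s h0
      _ = ‖f‖ := mul_one _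
  exact (tendsto_zero_iff_abs_tendsto_zero _).2 h1.tendsto_atTop_zero

theorem daugavet : IsDaugavetPoint x0 := by
  refine ⟨norm_x0, fun f hf α hα ε hε => ?_⟩
  -- a point of the slice in the open ball
  obtain ⟨y, hy1, hy2⟩ : ∃ y : Xt, ‖y‖ < 1 ∧ 1 - α < f y := by
    obtain ⟨y, hy, hy'⟩ := f.exists_lt_apply_of_lt_opNorm (r := 1 - α) (by rw [hf]; linarith)
    rw [Real.norm_eq_abs] at hy'
    rcases le_total 0 (f y) with h | h
    · exact ⟨y, hy, by rwa [abs_of_nonneg h] at hy'⟩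
    · refine ⟨-y, by rwa [norm_neg], ?_⟩
      rw [map_neg]
      rwa [abs_of_nonpos h] at hy'
  -- its modifications
  set c : ℕ → ℝ := fun n => -1 - co n y with hc
  have hcb : ∀ n, |c n| ≤ 1 + (|y.1| + ‖y.2‖) := by
    intro n
    have h1 : |c n| ≤ |(-1 : ℝ)| + |co n y| := abs_sub _ _
    rw [abs_neg, abs_one] at h1
    linarith [abs_co_le n y]
  set K : ℝ := 1 + (|y.1| + ‖y.2‖) with hK
  have hK0 : 0 ≤ K := (abs_nonneg _).trans (hcb 0)
  have ht1 : Tendsto (fun n : ℕ => K * (1 / 2 : ℝ) ^ (n + 1)) atTop (𝓝 (K * 0)) :=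
    ((tendsto_pow_atTop_nhds_zero_of_lt_one (by norm_num) (by norm_num)).comp
      (tendsto_add_atTop_nat 1)).const_mul K
  rw [mul_zero] at ht1
  have ht2 : Tendsto (fun n : ℕ => K * |f (ee n)|) atTop (𝓝 (K * |0|)) :=
    ((tendsto_f f).abs).const_mul K
  rw [abs_zero, mul_zero] at ht2
  have e1 := ht1.eventually_lt_const (show (0 : ℝ) < 1 - ‖y‖ by linarith)
  have e2 := ht2.eventually_lt_const (show (0 : ℝ) < f y - (1 - α) by linarith)
  have e3 := tendsto_ep.eventually_lt_const (show (0 : ℝ) < ε / 2 by linarith)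
  obtain ⟨n, h1, h2, h3⟩ := (e1.and (e2.and e3)).exists
  set z : Xt := y + c n • ee n with hz
  have hTz : ‖T z‖ ≤ ‖T y‖ + K * (1 / 2 : ℝ) ^ (n + 1) := by
    rw [hz, map_add, map_smul]
    refine (norm_add_le _ _).trans ?_
    rw [norm_smul, norm_T_ee, Real.norm_eq_abs]
    gcongr
    exact hcb n
  have hTz1 : ‖T z‖ ≤ 1 := by
    have : ‖T y‖ ≤ ‖y‖ := T_le_N y
    linarith
  have hcon : co n z = -1 := by
    rw [hz, map_add, map_smul, co_ee, if_pos rfl, smul_eq_mul, mul_one, hc]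
    ring
  have hcom : ∀ m, m ≠ n → co m z = co m y := by
    intro m hm
    rw [hz, map_add, map_smul, co_ee, if_neg hm, smul_zero, add_zero]
  refine ⟨z, ?_, ?_, ?_⟩
  · rw [norm_def]
    refine N_le hTz1 fun m => ?_
    by_cases hm : m = n
    · subst hm
      unfold ph
      rw [hcon, abs_neg, abs_one]
      have := ep_pos m
      nlinarith
    · unfold ph
      rw [hcom m hm]
      have h4 : ph m y ≤ ‖y‖ := ph_le_N m y
      unfold ph at h4
      have h5 := ep_pos m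
      have h6 := ep_le m
      have h7 : 0 ≤ K * (1 / 2 : ℝ) ^ (n + 1) := by positivity
      nlinarith
  · rw [hz, map_add, map_smul, smul_eq_mul]
    have h4 : |c n * f (ee n)| ≤ K * |f (ee n)| := by
      rw [abs_mul]
      gcongr
      exact hcb n
    have h5 := neg_abs_le (c n * f (ee n))
    linarith
  · have h4 : ph n (x0 - z) ≤ ‖x0 - z‖ := ph_le_N n _
    have h5 : (1 - ep n) * 2 ≤ ph n (x0 - z) := by
      unfold ph
      rw [map_sub, co_x0, hcon]
      have h6 : |(1 : ℝ) - -1| = 2 := by norm_num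
      rw [h6]
      have := mul_nonneg (ep_pos n).le (norm_nonneg (T (x0 - z)))
      linarith
    linarith

/-- There is a strictly convex Banach space with a Daugavet point. -/
theorem result : ∃ (X : Type) (_ : NormedAddCommGroup X) (_ : NormedSpace ℝ X)
    (_ : CompleteSpace X), StrictlyConvex X ∧ ∃ x : X, IsDaugavetPoint x :=
  ⟨Xt, inferInstance, inferInstance, inferInstance, strictlyConvex, x0, daugavet⟩

end Pool.Agent.Results.MP_7c844e_an.StrictlyConvexDaugavet
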